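import Mathlib

/-! Two generic lemmas for the bundling argument: the hub count in a tree and pairing by type. -/

set_option autoImplicit false

namespace Pool.Agent.Lib.MP_12a5fd_co.YU73

open Finset

/-- the degrees in one colour class of a tree add up to less than the order -/
theorem deg_sum_lt {n : ℕ} (T : SimpleGraph (Fin n)) (hT : T.IsTree) (A : Finset (Fin n))
    (hA : ∀ x y, T.Adj x y → (x ∈ A ↔ y ∉ A)) :
    ∑ x ∈ A, (T.neighborSet x).ncard + 1 ≤ n := by
  classical
  have h1 := hT.card_edgeFinset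
  rw [Fintype.card_fin] at h1
  have h2 : ∑ x ∈ A, (T.neighborSet x).ncard = #(A.sigma fun x => T.neighborFinset x) := by
    rw [card_sigma]
    refine sum_congr rfl fun x _ => ?_
    rw [SimpleGraph.neighborFinset_def, Set.ncard_eq_toFinset_card']
  have h3 : #(A.sigma fun x => T.neighborFinset x) ≤ #T.edgeFinset := by
    refine card_le_card_of_injOn (fun p => s(p.1, p.2)) (fun p hp => ?_) ?_
    · simp only [coe_sigma, Set.mem_sigma_iff, mem_coe, SimpleGraph.mem_neighborFinset] at hp
      simpa using hp.2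
    · rintro ⟨x, y⟩ hp ⟨z, t⟩ hq e
      simp only [coe_sigma, Set.mem_sigma_iff, mem_coe, SimpleGraph.mem_neighborFinset] at hp hq
      rcases Sym2.eq_iff.1 e with ⟨rfl, rfl⟩ | ⟨rfl, rfl⟩
      · rfl
      · exact absurd hq.1 ((hA _ _ hp.2).1 hp.1)
  omega

/-- hub count, integer form: the degrees of a subset `H` of a colour class `A` add up to at most
the size of the other class plus `#H` -/
theorem hub_nat {n : ℕ} (T : SimpleGraph (Fin n)) (hT : T.IsTree) (A : Finset (Fin n))
    (hA : ∀ x y, T.Adj x y → (x ∈ A ↔ y ∉ A)) (H : Finset (Fin n)) (hH : H ⊆ A) :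
    ∑ x ∈ H, (T.neighborSet x).ncard + #A ≤ n + #H := by
  classical
  have h1 := deg_sum_lt T hT A hA
  have h2 := sum_sdiff (f := fun x => (T.neighborSet x).ncard) hH
  have h3 := card_sdiff_add_card_eq_card hH
  rcases subsingleton_or_nontrivial (Fin n) with hs | hs
  · have h4 : #A ≤ 1 := card_le_one.2 fun a _ b _ => Subsingleton.elim a b
    omega
  · have h4 : #(A \ H) * 1 ≤ ∑ x ∈ A \ H, (T.neighborSet x).ncard := by
      refine card_nsmul_le_sum _ _ 1 fun x _ => ?_
      obtain ⟨y, hy⟩ : x ∈ T.support := by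
        rw [hT.connected.preconnected.support_eq_univ]
        trivial
      exact (Set.ncard_pos (Set.toFinite _)).2 ⟨y, hy⟩
    omega

/-- hub count: the degrees above `d` in a colour class add up to at most the size of the other
class plus `n / d` -/
theorem hub_le {n : ℕ} (T : SimpleGraph (Fin n)) (hT : T.IsTree) (A : Finset (Fin n))
    (hA : ∀ x y, T.Adj x y → (x ∈ A ↔ y ∉ A)) (d : ℝ) (hd : 0 < d) :
    ((∑ x ∈ A with d < (T.neighborSet x).ncard, (T.neighborSet x).ncard : ℕ) : ℝ) ≤
      (n : ℝ) - #A + n / d := by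
  classical
  have hH : ({x ∈ A | d < (T.neighborSet x).ncard} : Finset _) ⊆ A := filter_subset _ _
  have h1 : ((∑ x ∈ A with d < (T.neighborSet x).ncard, (T.neighborSet x).ncard : ℕ) : ℝ) + #A ≤
      n + #({x ∈ A | d < (T.neighborSet x).ncard} : Finset _) := by
    exact_mod_cast hub_nat T hT A hA _ hH
  have h2 : (#({x ∈ A | d < (T.neighborSet x).ncard} : Finset _) : ℝ) * d ≤ n := by
    have h3 : (#({x ∈ A | d < (T.neighborSet x).ncard} : Finset _) : ℝ) * d ≤
        ∑ x ∈ A with d < (T.neighborSet x).ncard, ((T.neighborSet x).ncard : ℝ) := by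
      rw [← nsmul_eq_mul]
      exact card_nsmul_le_sum _ _ _ fun x hx => (mem_filter.1 hx).2.le
    have h4 : ∑ x ∈ A with d < (T.neighborSet x).ncard, (T.neighborSet x).ncard ≤ n :=
      (sum_le_sum_of_subset hH).trans (by have := deg_sum_lt T hT A hA; omega)
    refine h3.trans ?_
    exact_mod_cast h4
  have h5 := (le_div_iff₀ hd).2 h2
  linarith

/-- pairing by type: an involution that keeps the type and has at most one fixed point per type -/
theorem twin_pair {ι τ : Type} [Finite ι] (ty : ι → τ) :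
    ∃ p : ι → ι, (∀ i, p (p i) = i) ∧ (∀ i, ty (p i) = ty i) ∧
      ∀ i j, p i = i → p j = j → ty i = ty j → i = j := by
  classical
  have h : ∀ t : τ, ∃ q : {i // ty i = t} → {i // ty i = t}, (∀ i, q (q i) = i) ∧
      ∀ i j, q i = i → q j = j → i = j := fun t => by
    obtain ⟨m, ⟨e⟩⟩ := Finite.exists_equiv_fin {i // ty i = t}
    refine ⟨fun i => e.symm (e i).rev, fun i => by simp, fun i j hi hj => ?_⟩
    have h1 := congrArg Fin.val (e.symm_apply_eq.1 hi)
    have h2 := congrArg Fin.val (e.symm_apply_eq.1 hj)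
    have h3 := (e i).2
    have h4 := (e j).2
    rw [Fin.val_rev] at h1 h2
    exact e.injective (Fin.ext (by omega))
  choose q hq1 hq2 using h
  have key : ∀ t (x : {i // ty i = t}), (q (ty x.1) ⟨x.1, rfl⟩).1 = (q t x).1 := by
    rintro t ⟨i, rfl⟩
    rfl
  refine ⟨fun i => (q (ty i) ⟨i, rfl⟩).1, fun i => ?_, fun i => (q (ty i) ⟨i, rfl⟩).2,
    fun i j hi hj e => ?_⟩
  · exact (key (ty i) (q (ty i) ⟨i, rfl⟩)).trans (by rw [hq1])
  · have h1 : q (ty j) ⟨i, e⟩ = ⟨i, e⟩ := Subtype.ext ((key (ty j) ⟨i, e⟩).symm.trans hi)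
    exact congrArg Subtype.val (hq2 (ty j) ⟨i, e⟩ ⟨j, rfl⟩ h1 (Subtype.ext hj))

end Pool.Agent.Lib.MP_12a5fd_co.YU73
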